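import Pool.Agent.Helper74.FN.Defs

set_option autoImplicit false

/-!
# Project FN, piece N1: consequences of the parameter inequalities
-/

namespace Pool.Agent.Helper7.FN

open Finset
open Pool.Agent.Helper53.WR
open Pool.Agent.Helper48.FB (win crossF Cs Fs dens)
open Pool.Agent.Helper74.FN

/-- FN-N1 (consequences of the parameter inequalities). -/
theorem NTow.facts {a u b w r c : ℕ → ℕ} (h : NTow a u b w r c) (k : ℕ) :
    60000 ≤ u k ∧ 2 ^ 42 * u k ≤ a k ∧ k + 1 ≤ a k ∧ a k < 2 ^ (u k) ∧ b k ≤ u k ∧ w k ≤ u k ∧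
      r k ≤ u k ∧ 2 ^ (r k + b k + w k + 80) ≤ a k ∧ k ≤ a k := by
  have hu : ∀ j, 60000 ≤ u j := fun j => by have := h.lu j; omega
  have hua : ∀ j, 2 ^ 42 * u j ≤ a j := fun j => by
    have h1 := h.ua j
    have h2 := h.r1 j
    calc 2 ^ 42 * u j ≤ 2 ^ 42 * (u j * r j) :=
          Nat.mul_le_mul_left _ (Nat.le_mul_of_pos_right _ h2)
      _ ≤ a j := h1
  have hka : ∀ j, j + 1 ≤ a j := by
    intro j
    induction j with
    | zero =>
      have h1 := hua 0
      have h2 := hu 0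
      have : 2 ^ 42 * 1 ≤ 2 ^ 42 * u 0 := Nat.mul_le_mul_left _ (by omega)
      have h3 : (1 : ℕ) ≤ 2 ^ 42 * 1 := by norm_num
      omega
    | succ j ih =>
      have h1 := h.step j
      have h2 := hu j
      omega
  have hl := h.lu k
  have hlog : a k < 2 ^ (Nat.log 2 (a k) + 1) := Nat.lt_pow_succ_log_self (by norm_num) _
  have hcr := h.cr k
  have ha0 : a k ≠ 0 := by have := hka k; omega
  have hrl : r k + b k + w k + 80 ≤ Nat.log 2 (a k) :=
    (Nat.le_log_iff_pow_le (by norm_num) ha0).2 hcr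
  refine ⟨hu k, hua k, hka k, ?_, by omega, by omega, by omega, hcr, ?_⟩
  · exact lt_of_lt_of_le hlog (Nat.pow_le_pow_right (by norm_num) (by omega))
  · have := hka k; omega

end Pool.Agent.Helper7.FN
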