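import Pool.Agent.Helper7.FN.N1

set_option autoImplicit false

/-!
# Project FN, piece N4: numerics of the windows of a world
-/

namespace Pool.Agent.Helper7.FN

open Finset
open Pool.Agent.Helper53.WR
open Pool.Agent.Helper48.FB (win crossF Cs Fs dens)
open Pool.Agent.Helper74.FN

/-- Windows are subadditive. -/
theorem win_add (A : Finset ℕ) (y h1 h2 : ℕ) :
    (win A y (h1 + h2)).card ≤ (win A y h1).card + (win A (y + h1) h2).card := by
  have : win A y (h1 + h2) ⊆ win A y h1 ∪ win A (y + h1) h2 := by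
    intro x hx
    simp only [win, mem_filter, mem_union] at hx ⊢
    by_cases hxh : x < y + h1
    · left; exact ⟨hx.1, hx.2.1, hxh⟩
    · right; exact ⟨hx.1, by omega, by omega⟩
  exact (card_le_card this).trans (card_union_le _ _)

/-- Many windows of length at most `Q`. -/
theorem win_split (A : Finset ℕ) (Q : ℕ) (α β : ℝ) (hα : 0 ≤ α) (hβ : 0 ≤ β) (y0 : ℕ)
    (hb : ∀ y h : ℕ, y0 ≤ y → h ≤ Q → ((win A y h).card : ℝ) ≤ α * h + β) :
    ∀ m : ℕ, ∀ y h : ℕ, y0 ≤ y → h ≤ (m + 1) * Q →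
      ((win A y h).card : ℝ) ≤ α * h + (m + 1) * β := by
  intro m
  induction m with
  | zero =>
    intro y h hy hh
    have := hb y h hy (by simpa using hh)
    simpa using this
  | succ m ih =>
    intro y h hy hh
    by_cases hQ : h ≤ Q
    · have h1 := hb y h hy hQ
      have h2 : (0 : ℝ) ≤ ((m : ℝ) + 1) * β := by positivity
      push_cast
      nlinarith
    · push Not at hQ
      obtain ⟨h', rfl⟩ := Nat.exists_eq_add_of_le hQ.le
      have h1 := hb y Q hy le_rfl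
      have h2 := ih (y + Q) h' (by omega) (by nlinarith)
      have h3 : ((win A y (Q + h')).card : ℝ) ≤
          ((win A y Q).card : ℝ) + ((win A (y + Q) h').card : ℝ) := by
        exact_mod_cast win_add A y Q h'
      push_cast
      nlinarith

/-- FN-N4 (numerics of the windows of the world; uses N1, N3). -/
theorem wn_num {a u b w r c : ℕ → ℕ} (h : NTow a u b w r c) (k : ℕ) {q : ℕ}
    (hq1 : 2 ^ a k < q) (hq2 : q ≤ 2 ^ (a k + 1)) (T A : Finset ℕ)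
    (hT : ∀ z z', z ≤ z' → (win T z' (2 ^ s0 u k)).card ≤
      2 ^ (w k + 5 + s0 u k - max (s0 u k) (Nat.log 2 z) / 2))
    (hA : ∀ x ∈ A, 2 ^ sN a u k ≤ x ∧ x < 2 ^ (4 * a (k + 1) + 8 * u (k + 1)))
    (hs : ∀ y h W, h ≤ q ^ 4 →
      (∀ z, y / q ^ 4 ≤ z + 514 + 2 * 2 ^ s0 u k → (win T z (2 ^ s0 u k)).card ≤ W) →
      (win A y h).card * 2 ^ s0 u k ≤
        4096 * (2 * (3 * (64 * (h / q ^ 2 + 2 + 4 * a k) * W) + 5 * a k * 2 ^ s0 u k))) :
    WinB A 0 (2 ^ (w k + 31)) (2 ^ 16 * a k) := by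
  obtain ⟨f1, f2, f3, f4, f5, f6, f7, f8, f9⟩ := NTow.facts h k
  have hlu := h.lu k
  have hstep := h.step k
  have huu := h.uu k
  set a0 := a k with ha0
  set u0 := u k with hu0
  set w0 := w k with hw0
  set S := s0 u k with hS
  have hSe : S = 8 * u0 - 20 := by rw [hS, s0]
  have hS2 : S / 2 = 4 * u0 - 10 := by omega
  have hq4 : 2 ^ (4 * a0) ≤ q ^ 4 := by
    calc 2 ^ (4 * a0) = (2 ^ a0) ^ 4 := by rw [← pow_mul]; ring_nf
      _ ≤ q ^ 4 := Nat.pow_le_pow_left hq1.le 4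
  have hq4' : q ^ 4 ≤ 2 ^ (4 * a0 + 4) := by
    calc q ^ 4 ≤ (2 ^ (a0 + 1)) ^ 4 := Nat.pow_le_pow_left hq2 4
      _ = 2 ^ (4 * a0 + 4) := by rw [← pow_mul]; ring_nf
  have hqpos : 0 < q := by
    have : 0 < 2 ^ a0 := by positivity
    omega
  have hq2' : 2 ^ (2 * a0) ≤ q ^ 2 := by
    calc 2 ^ (2 * a0) = (2 ^ a0) ^ 2 := by rw [← pow_mul]; ring_nf
      _ ≤ q ^ 2 := Nat.pow_le_pow_left hq1.le 2
  intro y hh hy hhy
  have hy0 : y ≠ 0 := by
    rintro rfl; simp at hy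
  by_cases hbig : 2 ^ (4 * a (k + 1) + 8 * u (k + 1)) ≤ y
  · have : (win A y hh).card = 0 := by
      rw [card_eq_zero]
      ext x
      simp only [win, mem_filter, notMem_empty, iff_false]
      rintro ⟨hx, hx1, -⟩
      have := (hA x hx).2
      omega
    rw [this]; simp
  push Not at hbig
  set l := Nat.log 2 y with hl
  have hl1 : l < 4 * a (k + 1) + 8 * u (k + 1) := Nat.log_lt_of_lt_pow hy0 hbig
  have hly : 2 ^ l ≤ y := Nat.pow_log_le_self 2 hy0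
  have hly' : y < 2 ^ (l + 1) := Nat.lt_pow_succ_log_self (by norm_num) y
  set z0 := y / q ^ 4 - 514 - 2 * 2 ^ S with hz0
  set M := max S (Nat.log 2 z0) with hM
  -- the key inequality of exponents
  have key : l / 2 ≤ 2 * a0 + M / 2 + 3 := by
    by_cases hc : y / q ^ 4 < 2 ^ (S + 3)
    · have h1 : y < 2 ^ (S + 3) * q ^ 4 := (Nat.div_lt_iff_lt_mul (by positivity)).1 hc
      have h2 : y < 2 ^ (S + 4 * a0 + 7) := by
        calc y < 2 ^ (S + 3) * q ^ 4 := h1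
          _ ≤ 2 ^ (S + 3) * 2 ^ (4 * a0 + 4) := Nat.mul_le_mul_left _ hq4'
          _ = 2 ^ (S + 4 * a0 + 7) := by rw [← pow_add]; ring_nf
      have h3 : l < S + 4 * a0 + 7 := Nat.log_lt_of_lt_pow hy0 h2
      have h4 : S ≤ M := le_max_left _ _
      omega
    · push Not at hc
      have h1 : 514 ≤ 2 ^ S := by
        calc 514 ≤ 2 ^ 10 := by norm_num
          _ ≤ 2 ^ S := Nat.pow_le_pow_right (by norm_num) (by omega)
      have h2 : 2 ^ (S + 3) = 8 * 2 ^ S := by rw [pow_add]; ring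
      have h3 : y / q ^ 4 ≤ 2 * z0 := by omega
      have h4 : y < 2 * (2 * z0 * q ^ 4) := by
        have h5 : y < (y / q ^ 4 + 1) * q ^ 4 :=
          (Nat.div_lt_iff_lt_mul (by positivity)).1 (Nat.lt_succ_self _)
        have h6 : (y / q ^ 4 + 1) * q ^ 4 ≤ 2 * (2 * z0) * q ^ 4 :=
          Nat.mul_le_mul_right _ (by omega)
        calc y < (y / q ^ 4 + 1) * q ^ 4 := h5
          _ ≤ 2 * (2 * z0) * q ^ 4 := h6
          _ = 2 * (2 * z0 * q ^ 4) := by ring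
      have hz1 : z0 < 2 ^ (Nat.log 2 z0 + 1) := Nat.lt_pow_succ_log_self (by norm_num) _
      have h5 : y < 2 ^ (Nat.log 2 z0 + 4 * a0 + 7) := by
        calc y < 2 * (2 * z0 * q ^ 4) := h4
          _ ≤ 2 * (2 * 2 ^ (Nat.log 2 z0 + 1) * 2 ^ (4 * a0 + 4)) := by gcongr
          _ = 2 ^ (Nat.log 2 z0 + 4 * a0 + 7) := by
            rw [show Nat.log 2 z0 + 4 * a0 + 7 = 1 + (1 + (Nat.log 2 z0 + 1)) + (4 * a0 + 4) by ring,
              pow_add, pow_add, pow_add]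
            ring
      have h6 : l < Nat.log 2 z0 + 4 * a0 + 7 := Nat.log_lt_of_lt_pow hy0 h5
      have h7 : Nat.log 2 z0 ≤ M := le_max_right _ _
      omega
  -- no truncation
  have hMs : M / 2 ≤ S := by
    have h1 : Nat.log 2 z0 / 2 ≤ S := by
      by_cases hz : z0 = 0
      · rw [hz]; simp
      have h2 : z0 < 2 ^ (4 * u0 + 8 * u (k + 1)) := by
        have h3 : z0 ≤ y / q ^ 4 := by omega
        have h4 : y / q ^ 4 < 2 ^ (4 * u0 + 8 * u (k + 1)) := by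
          rw [Nat.div_lt_iff_lt_mul (by positivity)]
          calc y < 2 ^ (4 * a (k + 1) + 8 * u (k + 1)) := hbig
            _ = 2 ^ (4 * u0 + 8 * u (k + 1)) * 2 ^ (4 * a0) := by
              rw [← pow_add, hstep]; ring_nf
            _ ≤ 2 ^ (4 * u0 + 8 * u (k + 1)) * q ^ 4 := Nat.mul_le_mul_left _ hq4
        omega
      have h5 := Nat.log_lt_of_lt_pow hz h2
      omega
    omega
  -- the bound for the windows of `T`
  set e := w0 + 5 + S - M / 2 with he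
  have hW : ∀ y', y ≤ y' → ∀ z, y' / q ^ 4 ≤ z + 514 + 2 * 2 ^ S →
      (win T z (2 ^ S)).card ≤ 2 ^ e := by
    intro y' hy' z hz
    refine hT z0 z ?_
    have : y / q ^ 4 ≤ y' / q ^ 4 := Nat.div_le_div_right hy'
    omega
  -- real numbers
  have hSpos : (0 : ℝ) < 2 ^ S := by positivity
  set ρ : ℝ := 2 ^ (w0 + 5) / 2 ^ (M / 2) with hρ
  have hρpos : 0 < ρ := by positivity
  have hWρ : (2 : ℝ) ^ e = ρ * 2 ^ S := by
    rw [hρ, div_mul_eq_mul_div, eq_div_iff (by positivity), ← pow_add, ← pow_add]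
    congr 1
    omega
  have hρs : ρ ≤ 1 / 2 ^ 20 := by
    rw [hρ, div_le_div_iff₀ (by positivity) (by positivity), one_mul, ← pow_add]
    apply pow_le_pow_right₀ (by norm_num)
    have h1 : S / 2 ≤ M / 2 := Nat.div_le_div_right (le_max_left _ _)
    have h2 : w0 ≤ u0 := f6
    omega
  set α : ℝ := 1572864 * ρ / (q : ℝ) ^ 2 with hα
  set β : ℝ := 1572864 * ((2 + 4 * a0 : ℕ) : ℝ) * ρ + 40960 * a0 with hβ
  have hqR : (0 : ℝ) < q := by exact_mod_cast hqpos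
  have hα0 : 0 ≤ α := by positivity
  have hβ0 : 0 ≤ β := by positivity
  have hb : ∀ y' h' : ℕ, y ≤ y' → h' ≤ q ^ 4 → ((win A y' h').card : ℝ) ≤ α * h' + β := by
    intro y' h' hy' hh'
    have h1 := hs y' h' (2 ^ e) hh' (hW y' hy')
    have h2 : ((win A y' h').card : ℝ) * 2 ^ S ≤
        4096 * (2 * (3 * (64 * (((h' / q ^ 2 : ℕ) : ℝ) + 2 + 4 * a0) * 2 ^ e) +
          5 * a0 * 2 ^ S)) := by exact_mod_cast h1
    have h3 : ((h' / q ^ 2 : ℕ) : ℝ) ≤ (h' : ℝ) / (q : ℝ) ^ 2 := by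
      have := @Nat.cast_div_le ℝ _ _ _ h' (q ^ 2)
      push_cast at this
      exact this
    rw [hWρ] at h2
    have h4 : ((win A y' h').card : ℝ) ≤
        4096 * (2 * (3 * (64 * (((h' / q ^ 2 : ℕ) : ℝ) + 2 + 4 * a0) * ρ) + 5 * a0)) := by
      have h5 : ((win A y' h').card : ℝ) * 2 ^ S ≤
        (4096 * (2 * (3 * (64 * (((h' / q ^ 2 : ℕ) : ℝ) + 2 + 4 * a0) * ρ) + 5 * a0))) * 2 ^ S := by
        refine h2.trans (le_of_eq ?_)
        ring
      exact le_of_mul_le_mul_right h5 hSpos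
    calc ((win A y' h').card : ℝ) ≤
        4096 * (2 * (3 * (64 * (((h' / q ^ 2 : ℕ) : ℝ) + 2 + 4 * a0) * ρ) + 5 * a0)) := h4
      _ ≤ 4096 * (2 * (3 * (64 * ((h' : ℝ) / (q : ℝ) ^ 2 + 2 + 4 * a0) * ρ) + 5 * a0)) := by
        gcongr
      _ = α * h' + β := by
        rw [hα, hβ]
        push_cast
        ring
  have hq4pos : 0 < q ^ 4 := by positivity
  have h6 := win_split A (q ^ 4) α β hα0 hβ0 y hb (hh / q ^ 4) y hh le_rfl
    (by
      have := Nat.lt_succ_self (hh / q ^ 4)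
      exact ((Nat.div_lt_iff_lt_mul hq4pos).1 this).le)
  have h7 : ((hh / q ^ 4 : ℕ) : ℝ) ≤ (hh : ℝ) / (q : ℝ) ^ 4 := by
    have := @Nat.cast_div_le ℝ _ _ _ hh (q ^ 4)
    push_cast at this
    exact this
  have hβ1 : β ≤ 2 ^ 16 * a0 := by
    have ha1 : (1 : ℝ) ≤ a0 := by
      have : 1 ≤ a0 := by omega
      exact_mod_cast this
    rw [hβ]
    push_cast
    have h8 : (1572864 : ℝ) * (2 + 4 * a0) * ρ ≤ 1572864 * (6 * a0) * (1 / 2 ^ 20) := by
      gcongr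
      linarith
    nlinarith
  set X : ℝ := 2 ^ (l / 2) with hX
  have hXpos : 0 < X := by positivity
  have hX1 : X ≤ 2 ^ (2 * a0) * 2 ^ (M / 2) * 8 := by
    rw [hX]
    calc (2 : ℝ) ^ (l / 2) ≤ 2 ^ (2 * a0 + M / 2 + 3) := pow_le_pow_right₀ (by norm_num) key
      _ = 2 ^ (2 * a0) * 2 ^ (M / 2) * 8 := by rw [pow_add, pow_add]; norm_num
  have hq2R : (2 : ℝ) ^ (2 * a0) ≤ (q : ℝ) ^ 2 := by exact_mod_cast hq2'
  have hq4R : (2 : ℝ) ^ (4 * a0) ≤ (q : ℝ) ^ 4 := by exact_mod_cast hq4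
  have hαX : α * X ≤ 2 ^ (w0 + 30) := by
    have h8 : α ≤ 1572864 * ρ / 2 ^ (2 * a0) := by
      rw [hα]; gcongr
    calc α * X ≤ (1572864 * ρ / 2 ^ (2 * a0)) * (2 ^ (2 * a0) * 2 ^ (M / 2) * 8) := by
          gcongr
      _ = 1572864 * 8 * 2 ^ (w0 + 5) := by
          rw [hρ]; field_simp
      _ ≤ 2 ^ (w0 + 30) := by
          rw [show w0 + 30 = (w0 + 5) + 25 by ring, pow_add _ (w0 + 5) 25]
          nlinarith [show (0 : ℝ) < 2 ^ (w0 + 5) by positivity]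
  have hβX : β * X / (q : ℝ) ^ 4 ≤ 2 ^ (w0 + 30) := by
    have h8 : X ≤ 2 ^ (2 * a0 + 7 * u0) := by
      rw [hX]
      apply pow_le_pow_right₀ (by norm_num)
      omega
    have h9 : (a0 : ℝ) ≤ 2 ^ u0 := by exact_mod_cast f4.le
    have h10 : 8 * u0 + 16 ≤ 2 * a0 := by omega
    calc β * X / (q : ℝ) ^ 4 ≤ (2 ^ 16 * 2 ^ u0) * 2 ^ (2 * a0 + 7 * u0) / 2 ^ (4 * a0) := by
          gcongr
          exact hβ1.trans (by gcongr)
      _ = 2 ^ (16 + 8 * u0 + 2 * a0) / 2 ^ (4 * a0) := by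
          rw [show 16 + 8 * u0 + 2 * a0 = (16 + u0) + (2 * a0 + 7 * u0) by ring,
            pow_add _ (16 + u0) (2 * a0 + 7 * u0), pow_add _ 16 u0]
      _ ≤ 1 := by
          rw [div_le_one (by positivity)]
          exact pow_le_pow_right₀ (by norm_num) (by omega)
      _ ≤ 2 ^ (w0 + 30) := one_le_pow₀ (by norm_num)
  have hfin : ((win A y hh).card : ℝ) * X ≤ 2 ^ (w0 + 31) * hh + 2 ^ 16 * a0 * X := by
    have h8 : ((win A y hh).card : ℝ) ≤ α * hh + ((hh : ℝ) / (q : ℝ) ^ 4 + 1) * β := by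
      refine h6.trans ?_
      gcongr
    have h9 : ((win A y hh).card : ℝ) * X ≤
        (α * X) * hh + (β * X / (q : ℝ) ^ 4) * hh + β * X := by
      calc ((win A y hh).card : ℝ) * X ≤ (α * hh + ((hh : ℝ) / (q : ℝ) ^ 4 + 1) * β) * X := by
            gcongr
        _ = (α * X) * hh + (β * X / (q : ℝ) ^ 4) * hh + β * X := by ring
    have h10 : (0 : ℝ) ≤ hh := by positivity
    have h11 : (2 : ℝ) ^ (w0 + 31) = 2 ^ (w0 + 30) + 2 ^ (w0 + 30) := by
      rw [pow_succ _ (w0 + 30)]; ring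
    calc ((win A y hh).card : ℝ) * X
        ≤ (α * X) * hh + (β * X / (q : ℝ) ^ 4) * hh + β * X := h9
      _ ≤ 2 ^ (w0 + 30) * hh + 2 ^ (w0 + 30) * hh + 2 ^ 16 * a0 * X := by gcongr
      _ = 2 ^ (w0 + 31) * hh + 2 ^ 16 * a0 * X := by rw [h11]; ring
  have : ((win A y hh).card * 2 ^ (l / 2) : ℕ) ≤
      2 ^ (w0 + 31) * hh + 2 ^ 16 * a0 * 2 ^ (l / 2) := by
    have : (((win A y hh).card * 2 ^ (l / 2) : ℕ) : ℝ) ≤
        ((2 ^ (w0 + 31) * hh + 2 ^ 16 * a0 * 2 ^ (l / 2) : ℕ) : ℝ) := by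
      rw [Nat.cast_mul, Nat.cast_add, Nat.cast_mul, Nat.cast_mul, Nat.cast_mul, Nat.cast_pow,
        Nat.cast_pow, Nat.cast_pow, Nat.cast_ofNat]
      exact hfin
    exact_mod_cast this
  exact this

end Pool.Agent.Helper7.FN
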